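import Mathlib

/-!
# Approximating densities of singular Bernoulli convolutions tend to zero

The density `f n` at `x` is at most `(β - 1) * β ^ n` times the `ν`-measure of the closed ball around
`x` of radius `β ^ (-n) / (β - 1)`, by induction on `n` from the self-similarity of `ν`. If `ν` is
singular, the differentiation theorem shows that this tends to `0` almost everywhere.
-/

set_option autoImplicit false

namespace Pool.Agent.Results.MP_ddcbd8_an.SingularLimit

open Set Filter Topology MeasureTheory

/-- A fair coin, as a measure on the two truth values. -/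
noncomputable def coin : Measure Bool :=
  (2⁻¹ : ENNReal) • Measure.dirac false + (2⁻¹ : ENNReal) • Measure.dirac true

instance : IsProbabilityMeasure coin := by
  constructor
  simp [coin, ENNReal.inv_two_add_inv_two]

/-- The law of an infinite sequence of independent fair coins. -/
noncomputable def coins : Measure (ℕ → Bool) := Measure.infinitePi fun _ => coin

instance : IsProbabilityMeasure coins := by
  unfold coins; infer_instance

/-- The sum of the `a k * β ^ (- k)`, `k ≥ 1`, where `a k` is `1` or `0` according to the `k`-th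
coin. -/
noncomputable def digitSum (β : ℝ) (a : ℕ → Bool) : ℝ :=
  ∑' k, (if a k = true then 1 else 0) * (β⁻¹) ^ (k + 1)

/-- The Bernoulli convolution with parameter `β`. -/
noncomputable def bernoulliConv (β : ℝ) : Measure ℝ := coins.map (digitSum β)

/-- The densities `f n`, defined by the recursion of the problem and equal to `0` off the interval
`[0, 1 / (β - 1)]`. -/
noncomputable def f (β : ℝ) : ℕ → ℝ → ℝ
  | 0 => (Icc 0 (1 / (β - 1))).indicator fun _ => β - 1
  | n + 1 => (Icc 0 (1 / (β - 1))).indicator fun x => β / 2 * (f β n (β * x) + f β n (β * x - 1))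

/-! ### Self-similarity of the law of the coins -/

/-- Put a new coin in front. -/
def cons (b : Bool) (a : ℕ → Bool) : ℕ → Bool
  | 0 => b
  | n + 1 => a n

theorem measurable_cons (b : Bool) : Measurable (cons b) := by
  refine measurable_pi_lambda _ fun n => ?_
  cases n with
  | zero => exact measurable_const
  | succ n => exact measurable_pi_apply n

open Classical in
theorem coins_cons (b : Bool) (s : Finset ℕ) (t : ℕ → Set Bool) :
    coins.map (cons b) (Set.pi s t) =
      (if 0 ∈ s → b ∈ t 0 then 1 else 0) * ∏ i ∈ s.erase 0, coin (t i) := by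
  have hms : MeasurableSet (Set.pi (s : Set ℕ) t) :=
    MeasurableSet.pi s.countable_toSet fun i _ => MeasurableSet.of_discrete
  rw [Measure.map_apply (measurable_cons b) hms]
  have hpre : (∏ i ∈ s.erase 0, coin (t i)) =
      ∏ j ∈ (s.erase 0).preimage Nat.succ (Nat.succ_injective.injOn), coin (t (j + 1)) := by
    symm
    refine Finset.prod_preimage Nat.succ (s.erase 0) _ (fun i => coin (t i)) fun i hi hi' => ?_
    exfalso
    apply hi'
    have : i ≠ 0 := Finset.ne_of_mem_erase hi
    exact ⟨i - 1, by simp; omega⟩
  by_cases h0 : 0 ∈ s → b ∈ t 0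
  · rw [if_pos h0, one_mul, hpre]
    have : cons b ⁻¹' (Set.pi (s : Set ℕ) t) =
        Set.pi ((s.erase 0).preimage Nat.succ (Nat.succ_injective.injOn) : Finset ℕ)
          (fun j => t (j + 1)) := by
      ext a
      simp only [mem_preimage, Set.mem_pi, Finset.mem_coe, Finset.mem_preimage, Finset.mem_erase]
      constructor
      · rintro h j ⟨-, hj⟩
        exact h _ hj
      · intro h i hi
        cases i with
        | zero => exact h0 hi
        | succ i => exact h i ⟨by omega, hi⟩
    rw [this, coins, Measure.infinitePi_pi _ (fun i _ => MeasurableSet.of_discrete)]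
  · rw [if_neg h0, zero_mul]
    have : cons b ⁻¹' (Set.pi (s : Set ℕ) t) = ∅ := by
      ext a
      simp only [mem_preimage, Set.mem_pi, Finset.mem_coe, mem_empty_iff_false, iff_false]
      intro h
      apply h0
      intro h1
      exact h 0 h1
    rw [this, measure_empty]

theorem coins_eq : coins = (2⁻¹ : ENNReal) • coins.map (cons false) +
    (2⁻¹ : ENNReal) • coins.map (cons true) := by
  classical
  symm
  refine Measure.eq_infinitePi _ fun s t _ => ?_
  rw [Measure.add_apply, Measure.smul_apply, Measure.smul_apply, coins_cons, coins_cons,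
    smul_eq_mul, smul_eq_mul]
  by_cases h : 0 ∈ s
  · have h1 : coin (t 0) = 2⁻¹ * (if false ∈ t 0 then 1 else 0) +
        2⁻¹ * (if true ∈ t 0 then 1 else 0) := by
      rw [coin, Measure.add_apply, Measure.smul_apply, Measure.smul_apply,
        Measure.dirac_apply' _ MeasurableSet.of_discrete,
        Measure.dirac_apply' _ MeasurableSet.of_discrete, smul_eq_mul, smul_eq_mul]
      simp only [indicator_apply, Pi.one_apply]
    rw [← Finset.mul_prod_erase s _ h, h1]
    simp only [h, true_imp_iff]
    ring
  · have h1 : s.erase 0 = s := Finset.erase_eq_of_notMem h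
    simp only [h, false_imp_iff, if_true, h1, one_mul]
    rw [← add_mul, ENNReal.inv_two_add_inv_two, one_mul]

/-! ### The sum -/

section

variable {β : ℝ}

theorem summable_digit (hβ : 1 < β) (a : ℕ → Bool) :
    Summable fun k => (if a k = true then (1 : ℝ) else 0) * (β⁻¹) ^ (k + 1) := by
  have h1 : 0 < β⁻¹ := inv_pos.2 (by linarith)
  have h2 : β⁻¹ < 1 := inv_lt_one_of_one_lt₀ hβ
  refine Summable.of_nonneg_of_le (fun k => ?_) (fun k => ?_)
    ((summable_geometric_of_lt_one h1.le h2).mul_left (β⁻¹))
  · split_ifs <;> positivity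
  · rw [pow_succ]
    have : 0 < (β⁻¹) ^ k := by positivity
    split_ifs
    · linarith
    · rw [zero_mul]; positivity

theorem measurable_digitSum (hβ : 1 < β) : Measurable (digitSum β) := by
  have h : digitSum β = fun a => ∑' k, (if a k = true then (1 : ℝ) else 0) * (β⁻¹) ^ (k + 1) := rfl
  have h1 : 0 < β⁻¹ := inv_pos.2 (by linarith)
  have h2 : β⁻¹ < 1 := inv_lt_one_of_one_lt₀ hβ
  refine Continuous.measurable ?_
  rw [h]
  refine continuous_tsum (u := fun k => β⁻¹ * (β⁻¹) ^ k) (fun k => ?_)
    ((summable_geometric_of_lt_one h1.le h2).mul_left (β⁻¹)) fun k a => ?_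
  · refine Continuous.mul ?_ continuous_const
    exact (continuous_of_discreteTopology
      (f := fun b : Bool => if b = true then (1 : ℝ) else 0)).comp (continuous_apply k)
  · have : 0 < (β⁻¹) ^ k := by positivity
    rw [pow_succ, norm_mul, norm_mul, Real.norm_of_nonneg this.le, Real.norm_of_nonneg h1.le]
    split_ifs
    · rw [norm_one]; linarith
    · rw [norm_zero, zero_mul]; positivity

theorem digitSum_cons (hβ : 1 < β) (b : Bool) (a : ℕ → Bool) :
    digitSum β (cons b a) = ((if b = true then 1 else 0) + digitSum β a) / β := by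
  have hb : β ≠ 0 := by linarith
  rw [digitSum, (summable_digit hβ (cons b a)).tsum_eq_zero_add, digitSum, add_div, div_eq_mul_inv,
    div_eq_mul_inv, ← tsum_mul_right]
  congr 1
  · simp only [cons]
    cases b <;> simp
  · refine tsum_congr fun k => ?_
    have h1 : cons b a (k + 1) = a k := rfl
    rw [h1, pow_succ (β⁻¹) (k + 1)]
    cases a k <;> simp

theorem digitSum_nonneg (hβ : 1 < β) (a : ℕ → Bool) : 0 ≤ digitSum β a := by
  have h1 : 0 < β⁻¹ := inv_pos.2 (by linarith)
  refine tsum_nonneg fun k => ?_
  split_ifs <;> positivity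

theorem digitSum_le (hβ : 1 < β) (a : ℕ → Bool) : digitSum β a ≤ 1 / (β - 1) := by
  have h1 : 0 < β⁻¹ := inv_pos.2 (by linarith)
  have h2 : β⁻¹ < 1 := inv_lt_one_of_one_lt₀ hβ
  have h3 : 1 / (β - 1) = ∑' k : ℕ, β⁻¹ * (β⁻¹) ^ k := by
    rw [tsum_mul_left, tsum_geometric_of_lt_one h1.le h2]
    have : β - 1 ≠ 0 := by linarith
    field_simp
  rw [h3]
  refine (summable_digit hβ a).tsum_le_tsum (fun k => ?_)
    ((summable_geometric_of_lt_one h1.le h2).mul_left (β⁻¹))
  rw [pow_succ]
  have : 0 < (β⁻¹) ^ k := by positivity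
  split_ifs
  · linarith
  · rw [zero_mul]; positivity

theorem isProbabilityMeasure_conv (hβ : 1 < β) : IsProbabilityMeasure (bernoulliConv β) :=
  Measure.isProbabilityMeasure_map (measurable_digitSum hβ).aemeasurable

theorem conv_ball (hβ : 1 < β) (x r : ℝ) :
    bernoulliConv β (Metric.closedBall x r) =
      2⁻¹ * bernoulliConv β (Metric.closedBall (β * x) (β * r)) +
      2⁻¹ * bernoulliConv β (Metric.closedBall (β * x - 1) (β * r)) := by
  have hm := measurable_digitSum hβ
  have hb : 0 < β := by linarith
  rw [bernoulliConv, Measure.map_apply hm measurableSet_closedBall,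
    Measure.map_apply hm measurableSet_closedBall, Measure.map_apply hm measurableSet_closedBall]
  conv_lhs => rw [coins_eq]
  rw [Measure.add_apply, Measure.smul_apply, Measure.smul_apply, smul_eq_mul, smul_eq_mul,
    Measure.map_apply (measurable_cons _) (hm measurableSet_closedBall),
    Measure.map_apply (measurable_cons _) (hm measurableSet_closedBall)]
  have key : ∀ y c : ℝ, (c + y) / β ∈ Metric.closedBall x r ↔
      y ∈ Metric.closedBall (β * x - c) (β * r) := by
    intro y c
    rw [Metric.mem_closedBall, Metric.mem_closedBall, Real.dist_eq, Real.dist_eq]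
    have : (c + y) / β - x = (y - (β * x - c)) / β := by field_simp; ring
    rw [this, abs_div, abs_of_pos hb, div_le_iff₀ hb, mul_comm r β]
  congr 3
  · ext a
    simp only [mem_preimage, digitSum_cons hβ, key]
    simp
  · ext a
    simp only [mem_preimage, digitSum_cons hβ, key]
    simp

theorem f_nonneg (hβ : 1 < β) (n : ℕ) (x : ℝ) : 0 ≤ f β n x := by
  induction n generalizing x with
  | zero =>
    rw [f]
    exact indicator_nonneg (fun _ _ => by linarith) x
  | succ n ih =>
    rw [f]
    refine indicator_nonneg (fun y _ => ?_) x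
    have h1 := ih (β * y)
    have h2 := ih (β * y - 1)
    positivity

/-- The main estimate. -/
theorem f_le (hβ : 1 < β) (n : ℕ) (x : ℝ) :
    ENNReal.ofReal (f β n x) ≤ ENNReal.ofReal ((β - 1) * β ^ n) *
      bernoulliConv β (Metric.closedBall x ((β⁻¹) ^ n / (β - 1))) := by
  have := isProbabilityMeasure_conv hβ
  have hb : 0 < β := by linarith
  induction n generalizing x with
  | zero =>
    rw [f]
    by_cases hx : x ∈ Icc 0 (1 / (β - 1))
    · rw [indicator_of_mem hx]
      have h1 : bernoulliConv β (Metric.closedBall x ((β⁻¹) ^ 0 / (β - 1))) = 1 := by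
        rw [bernoulliConv, Measure.map_apply (measurable_digitSum hβ) measurableSet_closedBall]
        have : digitSum β ⁻¹' (Metric.closedBall x ((β⁻¹) ^ 0 / (β - 1))) = univ := by
          rw [eq_univ_iff_forall]
          intro a
          rw [mem_preimage, Metric.mem_closedBall, Real.dist_eq, pow_zero, abs_le]
          have h2 := digitSum_nonneg hβ a
          have h3 := digitSum_le hβ a
          constructor <;> linarith [hx.1, hx.2]
        rw [this, measure_univ]
      rw [h1]; simp
    · rw [indicator_of_notMem hx]; simp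
  | succ n ih =>
    rw [f]
    by_cases hx : x ∈ Icc 0 (1 / (β - 1))
    · rw [indicator_of_mem hx, conv_ball hβ]
      have e1 : β * ((β⁻¹) ^ (n + 1) / (β - 1)) = (β⁻¹) ^ n / (β - 1) := by
        rw [pow_succ]; field_simp
      rw [e1]
      have h1 := ih (β * x)
      have h2 := ih (β * x - 1)
      rw [ENNReal.ofReal_mul (by positivity), ENNReal.ofReal_add (f_nonneg hβ _ _) (f_nonneg hβ _ _)]
      have e2 : ENNReal.ofReal ((β - 1) * β ^ (n + 1)) * 2⁻¹ =
          ENNReal.ofReal (β / 2) * ENNReal.ofReal ((β - 1) * β ^ n) := by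
        rw [← ENNReal.ofReal_mul (by positivity)]
        have : (2⁻¹ : ENNReal) = ENNReal.ofReal (2⁻¹) := by
          rw [ENNReal.ofReal_inv_of_pos (by norm_num)]; simp
        rw [this, ← ENNReal.ofReal_mul (by
          have : 0 < β - 1 := by linarith
          positivity)]
        congr 1
        rw [pow_succ]; ring
      rw [mul_add (ENNReal.ofReal ((β - 1) * β ^ (n + 1))), ← mul_assoc, ← mul_assoc, e2, mul_add,
        mul_assoc, mul_assoc]
      exact add_le_add (mul_le_mul_right h1 _) (mul_le_mul_right h2 _)
    · rw [indicator_of_notMem hx]; simp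

end

/-- If the Bernoulli convolution with parameter `β` is singular, then `f n x` tends to `0` for
almost every `x`. -/
theorem result (β : ℝ) (h1 : 1 < β) (h2 : β < 2)
    (hs : bernoulliConv β ⟂ₘ (volume : Measure ℝ)) :
    ∀ᵐ x ∂(volume : Measure ℝ), Tendsto (fun n => f β n x) atTop (𝓝 0) := by
  have := isProbabilityMeasure_conv h1
  have hd := Besicovitch.ae_tendsto_rnDeriv (bernoulliConv β) (volume : Measure ℝ)
  have hr := hs.rnDeriv_ae_eq_zero
  filter_upwards [hd, hr] with x hx hx0
  rw [hx0, Pi.zero_apply] at hx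
  have hb : 0 < β := by linarith
  have hb1 : 0 < β - 1 := by linarith
  have hinv : β⁻¹ < 1 := inv_lt_one_of_one_lt₀ h1
  have hinv0 : 0 < β⁻¹ := inv_pos.2 hb
  have hrad : Tendsto (fun n : ℕ => (β⁻¹) ^ n / (β - 1)) atTop (𝓝[>] 0) := by
    refine tendsto_nhdsWithin_iff.2 ⟨?_, Eventually.of_forall fun n => ?_⟩
    · have := (tendsto_pow_atTop_nhds_zero_of_lt_one hinv0.le hinv).div_const (β - 1)
      simpa using this
    · rw [mem_Ioi]; positivity
  have h3 := hx.comp hrad
  have h4 : Tendsto (fun n : ℕ => 2 * (bernoulliConv β (Metric.closedBall x ((β⁻¹) ^ n / (β - 1))) /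
      volume (Metric.closedBall x ((β⁻¹) ^ n / (β - 1))))) atTop (𝓝 (2 * 0)) :=
    ENNReal.Tendsto.const_mul h3 (Or.inr (by norm_num))
  rw [mul_zero] at h4
  have h5 : ∀ n : ℕ, ENNReal.ofReal (f β n x) ≤
      2 * (bernoulliConv β (Metric.closedBall x ((β⁻¹) ^ n / (β - 1))) /
        volume (Metric.closedBall x ((β⁻¹) ^ n / (β - 1)))) := by
    intro n
    refine (f_le h1 n x).trans (le_of_eq ?_)
    rw [Real.volume_closedBall, ENNReal.div_eq_inv_mul, ← mul_assoc]
    congr 1
    rw [← ENNReal.ofReal_inv_of_pos (by positivity)]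
    have : (2 : ENNReal) = ENNReal.ofReal 2 := by simp
    rw [this, ← ENNReal.ofReal_mul (by norm_num)]
    congr 1
    rw [inv_pow]
    field_simp
  have h6 : Tendsto (fun n => ENNReal.ofReal (f β n x)) atTop (𝓝 0) :=
    tendsto_of_tendsto_of_tendsto_of_le_of_le tendsto_const_nhds h4 (fun _ => bot_le) h5
  have h7 := (ENNReal.tendsto_toReal ENNReal.zero_ne_top).comp h6
  refine h7.congr fun n => ?_
  simp only [Function.comp_apply]
  exact ENNReal.toReal_ofReal (f_nonneg h1 n x)

end Pool.Agent.Results.MP_ddcbd8_an.SingularLimit
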